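import Pool.Agent.Q216.Ulam.Defs

set_option autoImplicit false

/-!
For each `k ≥ 1`, the number of isomorphism classes of projective algebras generated by `k` subsets
of the plane is the continuum.
-/

namespace Pool.Agent.Results.MP_71be7b_lc.Continuum

open Pool.Agent.Q216.Ulam Cardinal

/-- The projective algebras generated by `k` plane sets. -/
def Gen (k : ℕ) : Type :=
  {F : Set (Set (ℝ × ℝ)) // ∃ S : Fin k → Set (ℝ × ℝ), F = generated (Set.range S)}

theorem Gen.isProjAlg {k : ℕ} (F : Gen k) : IsProjAlg F.1 := by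
  obtain ⟨S, hS⟩ := F.2
  rw [hS]
  exact generated_isProjAlg _

theorem isomorphic_refl (F : Set (Set (ℝ × ℝ))) : Isomorphic F F :=
  ⟨id, Set.bijOn_id F, fun _ _ => rfl, fun _ _ _ _ => rfl, fun _ _ => rfl, fun _ _ => rfl,
    fun _ _ _ _ _ _ => rfl⟩

theorem IsIso.sub_X {F G : Set (Set (ℝ × ℝ))} {φ : Set (ℝ × ℝ) → Set (ℝ × ℝ)}
    (h : IsIso φ F G) (hF : IsProjAlg F) {S : Set (ℝ × ℝ)} (hS : S ∈ F) :
    φ S ⊆ axisX ↔ S ⊆ axisX := by
  rw [← Set.inter_eq_left, ← Set.inter_eq_left, ← h.map_axisX hF,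
    ← h.map_inter hF hS hF.axisX_mem, h.map_axisX hF]
  exact h.bij.injOn.eq_iff (hF.inter hS hF.axisX_mem) hS

theorem IsIso.sub_Y {F G : Set (Set (ℝ × ℝ))} {φ : Set (ℝ × ℝ) → Set (ℝ × ℝ)}
    (h : IsIso φ F G) (hF : IsProjAlg F) {S : Set (ℝ × ℝ)} (hS : S ∈ F) :
    φ S ⊆ axisY ↔ S ⊆ axisY := by
  rw [← Set.inter_eq_left, ← Set.inter_eq_left, ← h.map_axisY hF,
    ← h.map_inter hF hS hF.axisY_mem, h.map_axisY hF]
  exact h.bij.injOn.eq_iff (hF.inter hS hF.axisY_mem) hS

theorem isomorphic_symm {F G : Set (Set (ℝ × ℝ))} (hF : IsProjAlg F)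
    (h : Isomorphic F G) : Isomorphic G F := by
  obtain ⟨φ, h⟩ := h
  have hinv := h.bij.invOn_invFunOn
  have hb : Set.BijOn (Function.invFunOn φ F) G F := hinv.symm.bijOn h.bij.surjOn.mapsTo_invFunOn
    h.bij.mapsTo
  set ψ := Function.invFunOn φ F with hψ
  have hφψ : ∀ S ∈ G, φ (ψ S) = S := fun S hS => hinv.2 hS
  have hm : ∀ S ∈ G, ψ S ∈ F := fun S hS => hb.mapsTo hS
  have hmem : ∀ T ∈ F, φ T ∈ G := fun T hT => h.bij.mapsTo hT
  have key : ∀ S T : Set (ℝ × ℝ), T ∈ F → φ T = S → ψ S = T := by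
    intro S T hT hS
    rw [← hS]
    exact hinv.1 hT
  refine ⟨ψ, hb, ?_, ?_, ?_, ?_, ?_⟩
  · intro S hS
    apply key _ _ (hF.compl _ (hm S hS))
    rw [h.compl _ (hm S hS), hφψ S hS]
  · intro S hS T hT
    apply key _ _ (hF.union _ (hm S hS) _ (hm T hT))
    rw [h.union _ (hm S hS) _ (hm T hT), hφψ S hS, hφψ T hT]
  · intro S hS
    apply key _ _ (hF.pi₁ _ (hm S hS))
    rw [h.pi₁ _ (hm S hS), hφψ S hS]
  · intro S hS
    apply key _ _ (hF.pi₂ _ (hm S hS))
    rw [h.pi₂ _ (hm S hS), hφψ S hS]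
  · intro A hA B hB _ _
    apply key _ _ (hF.tensor_mem (hm A hA) (hm B hB))
    rw [h.map_tensor hF (hm A hA) (hm B hB), hφψ A hA, hφψ B hB]

theorem isomorphic_trans {F G H : Set (Set (ℝ × ℝ))} (hF : IsProjAlg F) (hG : IsProjAlg G)
    (h1 : Isomorphic F G) (h2 : Isomorphic G H) : Isomorphic F H := by
  obtain ⟨φ, h1⟩ := h1
  obtain ⟨ψ, h2⟩ := h2
  have hm : ∀ S ∈ F, φ S ∈ G := fun S hS => h1.bij.mapsTo hS
  refine ⟨ψ ∘ φ, h2.bij.comp h1.bij, ?_, ?_, ?_, ?_, ?_⟩
  · intro S hS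
    show ψ (φ Sᶜ) = _
    rw [h1.compl _ hS, h2.compl _ (hm S hS)]
    rfl
  · intro S hS T hT
    show ψ (φ (S ∪ T)) = _
    rw [h1.union _ hS _ hT, h2.union _ (hm S hS) _ (hm T hT)]
    rfl
  · intro S hS
    show ψ (φ (pi₁ S)) = _
    rw [h1.pi₁ _ hS, h2.pi₁ _ (hm S hS)]
    rfl
  · intro S hS
    show ψ (φ (pi₂ S)) = _
    rw [h1.pi₂ _ hS, h2.pi₂ _ (hm S hS)]
    rfl
  · intro A hA B hB _ _
    show ψ (φ (tensor A B)) = _
    rw [h1.map_tensor hF hA hB, h2.map_tensor hG (hm A hA) (hm B hB)]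
    rfl

/-- Isomorphism of projective algebras generated by `k` plane sets. -/
def isoSetoid (k : ℕ) : Setoid (Gen k) where
  r F G := Isomorphic F.1 G.1
  iseqv :=
    { refl := fun F => isomorphic_refl F.1
      symm := fun {F _} h => isomorphic_symm F.isProjAlg h
      trans := fun {F G _} h1 h2 => isomorphic_trans F.isProjAlg G.isProjAlg h1 h2 }

/-- Generating tuples with the same kernel generate isomorphic algebras. -/
theorem isomorphic_of_kernel {ι : Type} [Nonempty ι] (S S' : ι → Set (ℝ × ℝ))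
    (h : ∀ s t : Term ι, s.eval S = t.eval S ↔ s.eval S' = t.eval S') :
    Isomorphic (generated (Set.range S)) (generated (Set.range S')) := by
  classical
  rw [generated_eq_range, generated_eq_range]
  let φ : Set (ℝ × ℝ) → Set (ℝ × ℝ) := fun A =>
    if hA : ∃ t : Term ι, t.eval S = A then (Classical.choose hA).eval S' else A
  have hφ : ∀ t : Term ι, φ (t.eval S) = t.eval S' := by
    intro t
    have hA : ∃ s : Term ι, s.eval S = t.eval S := ⟨t, rfl⟩
    show (if hA : ∃ s : Term ι, s.eval S = t.eval S then (Classical.choose hA).eval S'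
      else t.eval S) = _
    rw [dif_pos hA]
    exact (h _ _).1 (Classical.choose_spec hA)
  refine ⟨φ, ⟨?_, ?_, ?_⟩, ?_, ?_, ?_, ?_, ?_⟩
  · rintro _ ⟨t, rfl⟩
    exact ⟨t, (hφ t).symm⟩
  · rintro _ ⟨s, rfl⟩ _ ⟨t, rfl⟩ hst
    change φ (s.eval S) = φ (t.eval S) at hst
    rw [hφ, hφ] at hst
    exact (h s t).2 hst
  · rintro _ ⟨t, rfl⟩
    exact ⟨_, ⟨t, rfl⟩, hφ t⟩
  · rintro _ ⟨t, rfl⟩
    show φ (t.compl.eval S) = (φ (t.eval S))ᶜ
    rw [hφ, hφ]
    rfl
  · rintro _ ⟨s, rfl⟩ _ ⟨t, rfl⟩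
    show φ ((s.union t).eval S) = φ (s.eval S) ∪ φ (t.eval S)
    rw [hφ, hφ, hφ]
    rfl
  · rintro _ ⟨t, rfl⟩
    show φ (t.p₁.eval S) = pi₁ (φ (t.eval S))
    rw [hφ, hφ]
    rfl
  · rintro _ ⟨t, rfl⟩
    show φ (t.p₂.eval S) = pi₂ (φ (t.eval S))
    rw [hφ, hφ]
    rfl
  · rintro _ ⟨s, rfl⟩ _ ⟨t, rfl⟩ - -
    show φ ((s.tensor t).eval S) = tensor (φ (s.eval S)) (φ (t.eval S))
    rw [hφ, hφ, hφ]
    rfl

/-- For every `k ≥ 1` there are exactly continuum many isomorphism classes of projective algebras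
generated by `k` subsets of the plane. -/
theorem result (k : ℕ) (hk : 1 ≤ k) : #(Quotient (isoSetoid k)) = 𝔠 := by
  have : Nonempty (Fin k) := ⟨⟨0, hk⟩⟩
  apply le_antisymm
  · -- at most continuum many
    let ker : Gen k → Set (Term (Fin k) × Term (Fin k)) := fun F =>
      {p | p.1.eval (Classical.choose F.2) = p.2.eval (Classical.choose F.2)}
    have hker : ∀ F G : Gen k, ker F = ker G → Isomorphic F.1 G.1 := by
      intro F G h
      rw [Classical.choose_spec F.2, Classical.choose_spec G.2]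
      apply isomorphic_of_kernel
      intro s t
      have := Set.ext_iff.1 h (s, t)
      exact this
    have hinj : Function.Injective fun q : Quotient (isoSetoid k) => ker q.out := by
      intro p q h
      rw [← Quotient.out_eq p, ← Quotient.out_eq q]
      exact Quotient.sound (hker _ _ h)
    calc #(Quotient (isoSetoid k)) ≤ #(Set (Term (Fin k) × Term (Fin k))) := mk_le_of_injective hinj
      _ = 2 ^ #(Term (Fin k) × Term (Fin k)) := mk_set
      _ ≤ 2 ^ ℵ₀ := Cardinal.power_le_power_left two_ne_zero (mk_le_aleph0)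
      _ = 𝔠 := two_power_aleph0
  · -- at least continuum many
    let alg : Set ℕ → Gen k := fun T => ⟨generated (Set.range fun _ : Fin k => code T), _, rfl⟩
    have hmem : ∀ T, code T ∈ (alg T).1 := fun T => subset_generated _ ⟨⟨0, hk⟩, rfl⟩
    have hcount : ∀ T, ((alg T).1).Countable := fun T => generated_countable _
    have hfib : ∀ q : Quotient (isoSetoid k),
        {T : Set ℕ | (Quotient.mk (isoSetoid k) (alg T)) = q}.Countable := by
      intro q
      by_cases hq : ∃ T₀, Quotient.mk (isoSetoid k) (alg T₀) = q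
      · obtain ⟨T₀, hT₀⟩ := hq
        apply ((hcount T₀).image fun u => {n | test u n ≠ ∅}).mono
        intro T hT
        have h1 : Quotient.mk (isoSetoid k) (alg T) = Quotient.mk (isoSetoid k) (alg T₀) := by
          rw [hT₀]; exact hT
        obtain ⟨φ, hφ⟩ : Isomorphic (alg T).1 (alg T₀).1 := Quotient.exact h1
        exact ⟨φ (code T), hφ.bij.mapsTo (hmem T),
          (code_determined hφ (alg T).isProjAlg (hmem T)).symm⟩
      · have : {T : Set ℕ | (Quotient.mk (isoSetoid k) (alg T)) = q} = ∅ := by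
          rw [Set.eq_empty_iff_forall_notMem]
          intro T hT
          exact hq ⟨T, hT⟩
        rw [this]
        exact Set.countable_empty
    by_contra hlt
    rw [not_le] at hlt
    have h2 : #(Set ℕ) ≤ max #(Quotient (isoSetoid k)) ℵ₀ := by
      have h3 : #(Set ℕ) = Cardinal.sum fun q : Quotient (isoSetoid k) =>
          #{T : Set ℕ | (Quotient.mk (isoSetoid k) (alg T)) = q} := by
        rw [← Cardinal.mk_sigma]
        exact mk_congr (Equiv.sigmaFiberEquiv fun T => Quotient.mk (isoSetoid k) (alg T)).symm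
      rw [h3]
      calc _ ≤ Cardinal.sum fun q : Quotient (isoSetoid k) => ℵ₀ := by
            apply Cardinal.sum_le_sum
            intro q
            have := (hfib q).to_subtype
            exact mk_le_aleph0
        _ = #(Quotient (isoSetoid k)) * ℵ₀ := by rw [Cardinal.sum_const']
        _ ≤ max (max #(Quotient (isoSetoid k)) ℵ₀) ℵ₀ := Cardinal.mul_le_max _ _
        _ = max #(Quotient (isoSetoid k)) ℵ₀ := by rw [max_assoc, max_self]
    have h4 : #(Set ℕ) = 𝔠 := by rw [mk_set, mk_nat, two_power_aleph0]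
    rw [h4] at h2
    exact absurd h2 (not_le.2 (max_lt hlt aleph0_lt_continuum))

end Pool.Agent.Results.MP_71be7b_lc.Continuum
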